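import Pool.Agent.Y848.NK.Pos
import Pool.Agent.TH935.LP.L1

/-!
# Primes of `(k, 2k)` dividing `k` consecutive integers: the asymptotic number

For every `ε > 0` there is `τ` such that for every `d`, all large `k` and all `n` with `τ k ≤ n ≤ k ^ d` the number
of the primes of `(k, (1 + β) k]` which divide `(n - 1) ⋯ (n - h)`, `h = ⌊λ k⌋`, is
`(λ log (1 + β) + O(ε)) k / log k`. There is an absolute constant `c > 0` such that for every `d`, all large `k`
and ALL `n` with `2 k ≤ n ≤ k ^ d` at least `c k / log k` primes of `(k, 2k)` divide `(n - 1) ⋯ (n - k)`. In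
particular `n_k > k ^ d` for every `d` and all large `k` (Erdős).
-/

set_option autoImplicit false

namespace Pool.Agent.Results.MP_9698ab_nt.AsymptoticCount

open Finset

/-- `n` is admissible for `k`: `n ≥ 2k`, and the product `(n-1)(n-2)⋯(n-k)` is divisible by no prime `p`
with `k < p < 2k`. -/
def Admissible (k n : ℕ) : Prop :=
  2 * k ≤ n ∧ ∀ p : ℕ, p.Prime → k < p → p < 2 * k → ¬ p ∣ ∏ i ∈ Finset.Icc 1 k, (n - i)

/-- `n_k`, the least admissible integer. -/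
noncomputable def leastAdmissible (k : ℕ) : ℕ := sInf {n : ℕ | Admissible k n}

/-- the primes `p` with `k < p ≤ K` which divide the product `(n-1)(n-2)⋯(n-h)` -/
def divPrimes (n h k K : ℕ) : Finset ℕ :=
  (Finset.Ioc k K).filter (fun p => p.Prime ∧ p ∣ ∏ i ∈ Finset.Icc 1 h, (n - i))

/-- An admissible integer exists: twice the product of all the primes of `(k, 2k)`. -/
theorem exists_admissible (k : ℕ) (hk : 2 ≤ k) : ∃ n : ℕ, Admissible k n := by
  set P : ℕ := ∏ p ∈ (Finset.Ioo k (2 * k)).filter Nat.Prime, p with hP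
  obtain ⟨p, hp, hkp, hp2⟩ := Nat.exists_prime_lt_and_le_two_mul k (by omega)
  have hp3 : p < 2 * k := by
    rcases hp2.lt_or_eq with h | h
    · exact h
    · exfalso
      rw [h] at hp
      exact Nat.not_prime_mul (by norm_num) (by omega) hp
  have hmem : p ∈ (Finset.Ioo k (2 * k)).filter Nat.Prime := by
    rw [mem_filter, mem_Ioo]
    exact ⟨⟨hkp, hp3⟩, hp⟩
  have hpos : 0 < P := prod_pos fun q hq => ((mem_filter.1 hq).2).pos
  have hkP : k < P := lt_of_lt_of_le hkp (Nat.le_of_dvd hpos (dvd_prod_of_mem _ hmem))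
  refine ⟨2 * P, by omega, fun q hq hq1 hq2 hdvd => ?_⟩
  rw [Prime.dvd_finsetProd_iff hq.prime] at hdvd
  obtain ⟨i, hi, hd⟩ := hdvd
  rw [mem_Icc] at hi
  have hqP : q ∣ P := dvd_prod_of_mem (fun p => p) (by
    rw [mem_filter, mem_Ioo]
    exact ⟨⟨hq1, hq2⟩, hq⟩)
  have h1 : q ∣ 2 * P := dvd_mul_of_dvd_right hqP 2
  have h2 : q ∣ i := (Nat.dvd_sub_iff_right (by omega) h1).1 hd
  have h3 := Nat.le_of_dvd (by omega) h2
  omega

lemma sum_log_le {n h k K : ℕ} (hk : 1 ≤ k) (hK : K ≤ 2 * k) :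
    ((divPrimes n h k K).card : ℝ) * Real.log k ≤ ∑ p ∈ divPrimes n h k K, Real.log p ∧
    ∑ p ∈ divPrimes n h k K, Real.log p ≤ ((divPrimes n h k K).card : ℝ) * Real.log (2 * k) := by
  have hk0 : (0 : ℝ) < k := by exact_mod_cast hk
  constructor
  · rw [← nsmul_eq_mul, ← sum_const]
    apply sum_le_sum
    intro p hp
    have hp' := mem_Ioc.1 (mem_filter.1 hp).1
    exact Real.log_le_log hk0 (by exact_mod_cast hp'.1.le)
  · rw [← nsmul_eq_mul, ← sum_const]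
    apply sum_le_sum
    intro p hp
    have hp' := mem_Ioc.1 (mem_filter.1 hp).1
    have h1 : (p : ℝ) ≤ 2 * k := by exact_mod_cast hp'.2.trans hK
    exact Real.log_le_log (by exact_mod_cast (by omega : 0 < p)) h1

lemma log_two_mul {k : ℕ} (hk : 1 ≤ k) : Real.log (2 * k) = Real.log k + Real.log 2 := by
  have hk0 : (0 : ℝ) < k := by exact_mod_cast hk
  rw [Real.log_mul (by norm_num) hk0.ne']
  ring

/-- (1) For `β, lam ∈ (0, 1]` and `ε > 0` there is `τ` such that for every `d` and all large `k`, uniformly for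
`τ k ≤ n ≤ k ^ d`, the primes of `(k, (1 + β) k]` which divide the product of the `⌊lam k⌋` integers
`n - 1, …, n - ⌊lam k⌋` have the logarithmic weight `(lam log (1 + β) ± ε) k` and the number
`(lam log (1 + β) ± ε) k / log k`.

(2) There is an absolute `c > 0` such that for every `d`, all large `k` and all `n` with `2 k ≤ n ≤ k ^ d` at least
`c k / log k` primes of `(k, 2k]` divide `(n - 1) ⋯ (n - k)`.

(3) Hence (Erdős) `n_k > k ^ d` for every real `d` and all large `k`. -/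
theorem result :
    (∀ β lam ε : ℝ, 0 < β → β ≤ 1 → 0 < lam → lam ≤ 1 → 0 < ε → ∃ τ : ℝ, ∀ d : ℕ, ∃ k₀ : ℕ,
      ∀ k : ℕ, k₀ ≤ k → ∀ n : ℕ, τ * k ≤ n → (n : ℝ) ≤ (k : ℝ) ^ d →
        |∑ p ∈ divPrimes n ⌊lam * k⌋₊ k ⌊(1 + β) * k⌋₊, Real.log p - lam * Real.log (1 + β) * k| ≤ ε * k ∧
        |((divPrimes n ⌊lam * k⌋₊ k ⌊(1 + β) * k⌋₊).card : ℝ) - lam * Real.log (1 + β) * (k / Real.log k)| ≤
          ε * (k / Real.log k)) ∧
    (∃ c : ℝ, 0 < c ∧ ∀ d : ℕ, ∃ k₀ : ℕ, ∀ k : ℕ, k₀ ≤ k → ∀ n : ℕ, 2 * k ≤ n → (n : ℝ) ≤ (k : ℝ) ^ d →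
      c * (k / Real.log k) ≤ ((divPrimes n k k (2 * k)).card : ℝ)) ∧
    (∀ k : ℕ, 2 ≤ k → Admissible k (leastAdmissible k)) ∧
    ∀ d : ℝ, ∃ k₀ : ℕ, ∀ k : ℕ, k₀ ≤ k → (k : ℝ) ^ d < leastAdmissible k := by
  have hmem : ∀ k : ℕ, 2 ≤ k → Admissible k (leastAdmissible k) := by
    intro k hk
    have hne : {n : ℕ | Admissible k n}.Nonempty := exists_admissible k hk
    exact Nat.sInf_mem hne
  have hpos : ∃ c : ℝ, 0 < c ∧ ∀ d : ℕ, ∃ k₀ : ℕ, ∀ k : ℕ, k₀ ≤ k → ∀ n : ℕ, 2 * k ≤ n → (n : ℝ) ≤ (k : ℝ) ^ d →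
      c * (k / Real.log k) ≤ ((divPrimes n k k (2 * k)).card : ℝ) := by
    obtain ⟨c, hc, H⟩ := Pool.Agent.Y848.NK.lower_all
    refine ⟨c / 2, by positivity, fun d => ?_⟩
    obtain ⟨k₀, h⟩ := H d
    refine ⟨k₀ + 2, fun k hk n hn hn' => ?_⟩
    have hk0 : (0 : ℝ) < k := by exact_mod_cast (by omega : 0 < k)
    have h1 : c * k ≤ ∑ p ∈ divPrimes n k k (2 * k), Real.log p := h k (by omega) n hn hn'
    have h2 := (sum_log_le (n := n) (h := k) (k := k) (K := 2 * k) (by omega) le_rfl).2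
    have h3 : Real.log 2 ≤ Real.log k := Real.log_le_log (by norm_num) (by exact_mod_cast (by omega : 2 ≤ k))
    have h4 : 0 < Real.log 2 := Real.log_pos (by norm_num)
    rw [log_two_mul (by omega)] at h2
    have h5 : ((divPrimes n k k (2 * k)).card : ℝ) * (Real.log k + Real.log 2) ≤
        ((divPrimes n k k (2 * k)).card : ℝ) * (2 * Real.log k) := by
      apply mul_le_mul_of_nonneg_left _ (Nat.cast_nonneg _)
      linarith
    have h6 : c * k ≤ ((divPrimes n k k (2 * k)).card : ℝ) * (2 * Real.log k) := (h1.trans h2).trans h5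
    rw [← mul_div_assoc, div_le_iff₀ (by linarith)]
    linarith
  refine ⟨?_, hpos, hmem, ?_⟩
  · intro β lam ε hβ0 hβ1 hl0 hl1 hε
    obtain ⟨τ, -, H⟩ := Pool.Agent.Y848.NK.asym Pool.Agent.Y848.NK.expSmall hβ0 hβ1 hl0 hl1
      (ε := ε / 2) (by positivity)
    refine ⟨τ, fun d => ?_⟩
    obtain ⟨k₁, h1⟩ := H d
    obtain ⟨k₂, h2⟩ := Pool.Agent.TH935.LD.ev_L' (4 * (1 + ε) / ε + 1)
    refine ⟨k₁ + k₂ + 2, fun k hk n hn hn' => ?_⟩
    have hk0 : (0 : ℝ) < k := by exact_mod_cast (by omega : 0 < k)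
    have hlog := h2 k (by omega)
    have a1 : |∑ p ∈ divPrimes n ⌊lam * k⌋₊ k ⌊(1 + β) * k⌋₊, Real.log p - lam * Real.log (1 + β) * k| ≤ ε / 2 * k :=
      h1 k (by omega) n hn hn'
    have hK : ⌊(1 + β) * k⌋₊ ≤ 2 * k := by
      have e1 : (1 + β) * k ≤ ((2 * k : ℕ) : ℝ) := by
        push_cast
        nlinarith
      exact (Nat.floor_le_floor e1).trans (by rw [Nat.floor_natCast])
    obtain ⟨a2, a3⟩ := sum_log_le (n := n) (h := ⌊lam * k⌋₊) (k := k) (K := ⌊(1 + β) * k⌋₊) (by omega) hK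
    rw [log_two_mul (by omega)] at a3
    obtain ⟨cd, hcd⟩ : ∃ cd : ℝ, cd = ((divPrimes n ⌊lam * k⌋₊ k ⌊(1 + β) * k⌋₊).card : ℝ) := ⟨_, rfl⟩
    obtain ⟨Sg, hSg⟩ : ∃ Sg : ℝ, Sg = ∑ p ∈ divPrimes n ⌊lam * k⌋₊ k ⌊(1 + β) * k⌋₊, Real.log p := ⟨_, rfl⟩
    rw [← hcd] at a2 a3 ⊢
    rw [← hSg] at a1 a2 a3 ⊢
    have hcd0 : 0 ≤ cd := by rw [hcd]; exact Nat.cast_nonneg _
    obtain ⟨l, hl⟩ : ∃ l : ℝ, l = Real.log k := ⟨_, rfl⟩
    rw [← hl] at a2 a3 hlog ⊢
    have hl1' : 4 * (1 + ε) / ε ≤ l := by linarith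
    have hl0' : 0 < l := lt_of_lt_of_le (by positivity) hl1'
    rw [div_le_iff₀ hε] at hl1'
    have hA1 : lam * Real.log (1 + β) ≤ 1 := by
      have e1 : Real.log (1 + β) ≤ 1 := by
        have := Real.log_le_sub_one_of_pos (show 0 < 1 + β by linarith)
        linarith
      have e2 : 0 ≤ Real.log (1 + β) := Real.log_nonneg (by linarith)
      nlinarith
    obtain ⟨A, hA⟩ : ∃ A : ℝ, A = lam * Real.log (1 + β) := ⟨_, rfl⟩
    rw [← hA] at a1 hA1 ⊢
    have a4 := abs_le.1 a1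
    have hlog2 : Real.log 2 ≤ 1 := by
      have := Real.log_two_lt_d9
      linarith
    refine ⟨a1.trans (by nlinarith), ?_⟩
    have b1 : cd * l ≤ (A + ε / 2) * k := by linarith [a4.2]
    have b2 : cd * l ≤ (1 + ε) * k := by nlinarith
    -- `cd ≤ (1 + ε) k / l ≤ ε k / 4`
    have b3 : cd ≤ ε / 4 * k := by
      have e1 : cd * (4 * (1 + ε)) ≤ cd * (l * ε) := mul_le_mul_of_nonneg_left hl1' hcd0
      have e2 : cd * (l * ε) ≤ (1 + ε) * k * ε := by nlinarith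
      have e3 : (1 + ε) * (4 * cd) ≤ (1 + ε) * (ε * k) := by nlinarith
      have e4 := le_of_mul_le_mul_left e3 (by linarith)
      linarith
    have b4 : cd * Real.log 2 ≤ ε / 4 * k := by
      have : cd * Real.log 2 ≤ cd * 1 := mul_le_mul_of_nonneg_left hlog2 hcd0
      linarith
    have b5 : (A - ε) * k ≤ cd * l := by nlinarith [a4.1]
    rw [abs_le]
    have hkl : 0 < k / l := div_pos hk0 hl0'
    constructor
    · have : (A - ε) * (k / l) ≤ cd := by
        rw [← mul_div_assoc, div_le_iff₀ hl0']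
        exact b5
      linarith
    · have : cd ≤ (A + ε) * (k / l) := by
        rw [← mul_div_assoc, le_div_iff₀ hl0']
        nlinarith
      linarith
  · intro d
    obtain ⟨c, hc, H⟩ := hpos
    obtain ⟨k₀, h⟩ := H ⌈d⌉₊
    refine ⟨k₀ + 3, fun k hk => ?_⟩
    by_contra hcon
    push Not at hcon
    have hk1 : (1 : ℝ) ≤ k := by exact_mod_cast (by omega : 1 ≤ k)
    have hadm := hmem k (by omega)
    have h1 := h k (by omega) (leastAdmissible k) hadm.1 (by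
      refine hcon.trans ?_
      calc (k : ℝ) ^ d ≤ (k : ℝ) ^ ((⌈d⌉₊ : ℕ) : ℝ) :=
            Real.rpow_le_rpow_of_exponent_le hk1 (Nat.le_ceil d)
        _ = (k : ℝ) ^ ⌈d⌉₊ := Real.rpow_natCast _ _)
    have h2 : 0 < Real.log k := Real.log_pos (by exact_mod_cast (by omega : 1 < k))
    have h3 : (0 : ℝ) < ((divPrimes (leastAdmissible k) k k (2 * k)).card : ℝ) :=
      lt_of_lt_of_le (mul_pos hc (div_pos (by linarith) h2)) h1
    have h4 : 0 < (divPrimes (leastAdmissible k) k k (2 * k)).card := by exact_mod_cast h3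
    obtain ⟨p, hp⟩ := card_pos.1 h4
    obtain ⟨hp1, hp2, hp3⟩ := mem_filter.1 hp
    rw [mem_Ioc] at hp1
    rcases hp1.2.lt_or_eq with h5 | h5
    · exact hadm.2 p hp2 hp1.1 h5 hp3
    · rw [h5] at hp2
      exact Nat.not_prime_mul (by norm_num) (by omega) hp2

end Pool.Agent.Results.MP_9698ab_nt.AsymptoticCount
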