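import Pool.Agent.Y371.NK.Pow
import Pool.Agent.H895R3.NK.E7

/-!
# Consecutive integers avoiding prime factors in `(k, 2k)`: short intervals and many primes

`n_k` is the least `n ≥ 2k` such that no prime `p` with `k < p < 2k` divides `(n-1)(n-2)⋯(n-k)`.
Erdős conjectured that `n_k > k^d` for every fixed `d` and all large `k`.  We prove a stronger form:
for all fixed `A` and `d` and all large `k`, every interval `(a, b] ⊆ (k, k^d]` of length
`k / (log k)^A ≤ b - a ≤ k` contains multiples of at least `(b - a) / (192 log k)` different primes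
of `(k, 2k)`; up to the constant this is the expected number.  If `b ≥ k^(1+ε)` then the same holds
for all the lengths `k^(1-c) ≤ b - a ≤ k`, where `c > 0` depends on `ε` and `d` only.

The proof uses sums over primes with the phase `h b / p` (Vaughan's identity and the derivative
tests of van der Corput of every order), a trigonometric minorant for the indicator function of a
short arc, and the prime number theorem with an arbitrary power of a logarithm in the error term.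
-/

set_option autoImplicit false

namespace Pool.Agent.Results.MP_9698ab_nt.ShortIntervals

open Finset

/-- `n` is admissible for `k`: `n ≥ 2k`, and the product `(n-1)(n-2)⋯(n-k)` is divisible by no prime `p`
with `k < p < 2k`. -/
def Admissible (k n : ℕ) : Prop :=
  2 * k ≤ n ∧ ∀ p : ℕ, p.Prime → k < p → p < 2 * k → ¬ p ∣ ∏ i ∈ Finset.Icc 1 k, (n - i)

/-- `n_k`, the least admissible integer. -/
noncomputable def leastAdmissible (k : ℕ) : ℕ := sInf {n : ℕ | Admissible k n}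

/-- The set of the primes `p` with `k < p < 2k` which divide at least one integer `m` with
`a < m ≤ b`. -/
def primesHitting (k a b : ℕ) : Set ℕ :=
  {p : ℕ | p.Prime ∧ k < p ∧ p < 2 * k ∧ ∃ m : ℕ, a < m ∧ m ≤ b ∧ p ∣ m}

/-- An admissible integer exists: twice the product of all the primes of `(k, 2k)`. -/
theorem exists_admissible (k : ℕ) (hk : 2 ≤ k) : ∃ n : ℕ, Admissible k n := by
  set P : ℕ := ∏ p ∈ (Finset.Ioo k (2 * k)).filter Nat.Prime, p with hP
  obtain ⟨p, hp, hkp, hp2⟩ := Nat.exists_prime_lt_and_le_two_mul k (by omega)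
  have hp3 : p < 2 * k := Pool.Agent.Y371.NK.lt_two_mul hk hp hp2
  have hmem : p ∈ (Finset.Ioo k (2 * k)).filter Nat.Prime := by
    rw [mem_filter, mem_Ioo]
    exact ⟨⟨hkp, hp3⟩, hp⟩
  have hpos : 0 < P := prod_pos fun q hq => ((mem_filter.1 hq).2).pos
  have hkP : k < P := lt_of_lt_of_le hkp (Nat.le_of_dvd hpos (dvd_prod_of_mem _ hmem))
  refine ⟨2 * P, by omega, fun q hq hq1 hq2 hdvd => ?_⟩
  rw [Prime.dvd_finsetProd_iff hq.prime] at hdvd
  obtain ⟨i, hi, hd⟩ := hdvd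
  rw [mem_Icc] at hi
  have hqP : q ∣ P := dvd_prod_of_mem (fun p => p) (by
    rw [mem_filter, mem_Ioo]
    exact ⟨⟨hq1, hq2⟩, hq⟩)
  have h1 : q ∣ 2 * P := dvd_mul_of_dvd_right hqP 2
  have h2 : q ∣ i := (Nat.dvd_sub_iff_right (by omega) h1).1 hd
  have h3 := Nat.le_of_dvd (by omega) h2
  omega

theorem primesHitting_eq (k a b : ℕ) :
    primesHitting k a b = ((Pool.Agent.Y371.NK.W k a b : Finset ℕ) : Set ℕ) := by
  ext p
  rw [mem_coe, Pool.Agent.Y371.NK.mem_W]
  constructor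
  · rintro ⟨h1, h2, h3, h4⟩
    exact ⟨⟨h2, h3⟩, h1, h4⟩
  · rintro ⟨⟨h2, h3⟩, h1, h4⟩
    exact ⟨h1, h2, h3, h4⟩

/-- **Erdős's lower bound for `n_k`, for short intervals and with many primes.** -/
theorem result : (∀ k : ℕ, 2 ≤ k → Admissible k (leastAdmissible k)) ∧
    (∀ d : ℝ, ∃ k₀ : ℕ, ∀ k : ℕ, k₀ ≤ k → (k : ℝ) ^ d < leastAdmissible k) ∧
    (∀ A d : ℕ, ∃ k₀ : ℕ, ∀ k : ℕ, k₀ ≤ k → ∀ a b : ℕ, k ≤ a → b ≤ k ^ d →
      (k : ℝ) / (Real.log k) ^ A ≤ (b : ℝ) - a → (b : ℝ) - a ≤ k →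
      ((b : ℝ) - a) / (192 * Real.log k) ≤ ((primesHitting k a b).ncard : ℝ)) ∧
    (∀ (d : ℕ) (ε : ℝ), 0 < ε → ∃ c : ℝ, 0 < c ∧ ∃ k₀ : ℕ, ∀ k : ℕ, k₀ ≤ k → ∀ a b : ℕ,
      (k : ℝ) ^ (1 + ε) ≤ b → b ≤ k ^ d → (k : ℝ) ^ (1 - c) ≤ (b : ℝ) - a → (b : ℝ) - a ≤ k →
      ((b : ℝ) - a) / (192 * Real.log k) ≤ ((primesHitting k a b).ncard : ℝ)) := by
  have hmem : ∀ k : ℕ, 2 ≤ k → Admissible k (leastAdmissible k) := by
    intro k hk
    have hne : {n : ℕ | Admissible k n}.Nonempty := exists_admissible k hk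
    exact Nat.sInf_mem hne
  refine ⟨hmem, fun d => ?_, fun A d => ?_, fun d ε hε => ?_⟩
  · obtain ⟨k₀, h⟩ := Pool.Agent.H895R3.NK.lower_bound ⌈d⌉₊
    refine ⟨k₀ + 2, fun k hk => ?_⟩
    have h1 := h k (by omega) (leastAdmissible k) (hmem k (by omega))
    have hk1 : (1 : ℝ) ≤ k := by exact_mod_cast (by omega : 1 ≤ k)
    calc (k : ℝ) ^ d ≤ (k : ℝ) ^ ((⌈d⌉₊ : ℕ) : ℝ) :=
          Real.rpow_le_rpow_of_exponent_le hk1 (Nat.le_ceil d)
      _ = ((k ^ ⌈d⌉₊ : ℕ) : ℝ) := by rw [Real.rpow_natCast]; push_cast; rfl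
      _ < leastAdmissible k := by exact_mod_cast h1
  · obtain ⟨k₀, h⟩ := Pool.Agent.Y371.NK.main_count A d
    refine ⟨k₀, fun k hk a b ha hb h1 h2 => ?_⟩
    rw [primesHitting_eq, Set.ncard_coe_finset]
    exact h k hk a b ha hb h1 h2
  · obtain ⟨c, hc, k₀, h⟩ := Pool.Agent.Y371.NK.pow_count d ε hε
    refine ⟨c, hc, k₀, fun k hk a b ha hb h1 h2 => ?_⟩
    rw [primesHitting_eq, Set.ncard_coe_finset]
    exact h k hk a b ha hb h1 h2

end Pool.Agent.Results.MP_9698ab_nt.ShortIntervals
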